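import Mathlib
import Pool.Agent.Lib.MP_8ddb3c_nt.Main

namespace Pool.Agent.Results.MP_8ddb3c_nt.BigVOneFinite

/-- `V n k` is the number of primes `p ∣ n + k` such that the exact power of `p` dividing `n + k`
divides none of `n, n + 1, ..., n + k - 1`. -/
def V (n k : ℕ) : ℕ :=
  ((n + k).primeFactors.filter
    (fun p => ∀ i < k, ¬ p ^ (n + k).factorization p ∣ n + i)).card

/-- `Vmax l n` is the supremum of `V n k` over all `k ≥ l`, taken in `ℕ∞`. -/
noncomputable def Vmax (l n : ℕ) : ℕ∞ := ⨆ k ≥ l, (V n k : ℕ∞)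

/-- The equation `V_1(n) = 1` has only finitely many solutions `n ≥ 1`. -/
theorem result : {n : ℕ | 1 ≤ n ∧ Vmax 1 n = 1}.Finite := by
  obtain ⟨N, hN⟩ := Pool.Agent.Lib.MP_8ddb3c_nt.exists_two_primes 1
  refine (Set.finite_lt_nat N).subset ?_
  rintro n ⟨hn, hV⟩
  by_contra hlt
  obtain ⟨k, hk, p, q, hp, hq, hne, h1, h2, h3, h4⟩ := hN n (not_lt.mp hlt)
  have key : ∀ r : ℕ, r.Prime → r ∣ n + k → k < r → r ∈ (n + k).primeFactors.filter
      (fun p => ∀ i < k, ¬ p ^ (n + k).factorization p ∣ n + i) := by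
    intro r hr hd hkr
    refine Finset.mem_filter.mpr ⟨Nat.mem_primeFactors.mpr ⟨hr, hd, by omega⟩, ?_⟩
    intro i hi hdi
    have a1 : r ∣ n + i := (Nat.dvd_ordProj_of_dvd (by omega) hr hd).trans hdi
    have a2 : r ∣ (n + k) - (n + i) := Nat.dvd_sub hd a1
    have := Nat.le_of_dvd (by omega) a2
    omega
  have h2V : 2 ≤ V n k :=
    Finset.one_lt_card.mpr ⟨p, key p hp h1 h3, q, key q hq h2 h4, hne⟩
  have hle : (V n k : ℕ∞) ≤ Vmax 1 n := le_iSup₂_of_le (f := fun k (_ : k ≥ 1) => (V n k : ℕ∞)) k hk le_rfl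
  rw [hV] at hle
  have : V n k ≤ 1 := by exact_mod_cast hle
  omega

end Pool.Agent.Results.MP_8ddb3c_nt.BigVOneFinite
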