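import Mathlib
import Pool.Agent.Lib.MP_8ddb3c_nt.Main

namespace Pool.Agent.Results.MP_8ddb3c_nt.SmallVAtLeastTwo

/-- `v n k` is the number of primes `p ∣ n + k` that divide none of `n, n + 1, ..., n + k - 1`. -/
def v (n k : ℕ) : ℕ :=
  ((n + k).primeFactors.filter (fun p => ∀ i < k, ¬ p ∣ n + i)).card

/-- `vmax l n` is the supremum of `v n k` over all `k ≥ l`, taken in `ℕ∞`. -/
noncomputable def vmax (l n : ℕ) : ℕ∞ := ⨆ k ≥ l, (v n k : ℕ∞)

/-- For every `l`, only finitely many `n ≥ 1` have `v_l(n) ≤ 1`. -/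
theorem result (l : ℕ) : {n : ℕ | 1 ≤ n ∧ vmax l n ≤ 1}.Finite := by
  obtain ⟨N, hN⟩ := Pool.Agent.Lib.MP_8ddb3c_nt.exists_two_primes l
  refine (Set.finite_lt_nat N).subset ?_
  rintro n ⟨hn, hV⟩
  by_contra hlt
  obtain ⟨k, hk, p, q, hp, hq, hne, h1, h2, h3, h4⟩ := hN n (not_lt.mp hlt)
  have key : ∀ r : ℕ, r.Prime → r ∣ n + k → k < r → r ∈ (n + k).primeFactors.filter
      (fun p => ∀ i < k, ¬ p ∣ n + i) := by
    intro r hr hd hkr
    refine Finset.mem_filter.mpr ⟨Nat.mem_primeFactors.mpr ⟨hr, hd, by omega⟩, ?_⟩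
    intro i hi a1
    have a2 : r ∣ (n + k) - (n + i) := Nat.dvd_sub hd a1
    have := Nat.le_of_dvd (by omega) a2
    omega
  have h2V : 2 ≤ v n k :=
    Finset.one_lt_card.mpr ⟨p, key p hp h1 h3, q, key q hq h2 h4, hne⟩
  have hle : (v n k : ℕ∞) ≤ vmax l n :=
    le_iSup₂_of_le (f := fun k (_ : k ≥ l) => (v n k : ℕ∞)) k hk le_rfl
  have : v n k ≤ 1 := by exact_mod_cast hle.trans hV
  omega

end Pool.Agent.Results.MP_8ddb3c_nt.SmallVAtLeastTwo
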